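import Pool.Agent.Helper53.BanachMod
import Pool.Agent.Y277.KE.Inst
import Pool.Agent.Y277.KE.Dual

/-!
# Left projectivity of `K(E)` and copies of `c₀` in the dual space

The Banach algebra `K(E)` of compact operators is not projective as a Banach left module over
itself for every complex Banach space `E` with a sequential form of the bounded approximation
property whose dual contains an isomorphic copy of `c₀` (equivalently, `E` contains a complemented
copy of `ℓ¹`).
-/

set_option autoImplicit false

namespace Pool.Agent.Results.MP_a30514_an.CZeroInDual

open Pool.Agent.Helper53 Pool.Agent.Y277.KE Filter Topology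

/-- (1) If `E` has the sequential approximation property `SeqAP` and the dual of `E` contains an
isomorphic copy of `c₀`, then `K(E)` is not projective as a Banach left module over itself.
(2) In particular this is so if `E` has a sequence of finite rank operators tending pointwise to
the identity and contains a complemented subspace isomorphic to `ℓ¹`;
(3) for `E = ℓ¹(Γ)`, where `Γ` is any infinite set;
(4) for `E = X × ℓ¹`, where `X` is any Banach space with `SeqAP`. -/
theorem result.{u} :
    (∀ (E : Type u) [NormedAddCommGroup E] [NormedSpace ℂ E] [CompleteSpace E],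
      SeqAP E → DualContainsC0 E → ¬ KLeftProjective E) ∧
    (∀ (E : Type u) [NormedAddCommGroup E] [NormedSpace ℂ E] [CompleteSpace E],
      FiniteRankApprox E → ComplementedEll1 E → ¬ KLeftProjective E) ∧
    (∀ (Γ : Type u) [Infinite Γ], ¬ KLeftProjective (lp (fun _ : Γ => ℂ) 1)) ∧
    (∀ (X : Type u) [NormedAddCommGroup X] [NormedSpace ℂ X] [CompleteSpace X],
      SeqAP X → ¬ KLeftProjective (X × lp (fun _ : ℕ => ℂ) 1)) := by
  refine ⟨?_, ?_, ?_, ?_⟩
  · intro E _ _ _ h1 h2
    exact not_leftProjective h1 (complementedEll1_of_dual h2)
  · intro E _ _ _ h1 h2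
    exact not_leftProjective h1.seqAP h2
  · intro Γ _
    exact not_leftProjective (seqAP_L1 Γ) (complementedEll1_L1 Γ)
  · intro X _ _ _ h1
    exact not_leftProjective (seqAP_prod h1 (seqAP_L1 ℕ)) (complementedEll1_prod X)

end Pool.Agent.Results.MP_a30514_an.CZeroInDual
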