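import Pool.Agent.Helper53.BanachMod
import Pool.Agent.Y277.UD.Final
import Pool.Agent.Y277.UD.Right

/-!
# One-sided projectivity of `K(E)` for spaces with an unconditional decomposition

For a complex Banach space `E` with an unconditional finite-dimensional decomposition, countable or
not (for example with an unconditional basis), the Banach algebra `K(E)` of compact operators is
projective as a Banach right module over itself, and it is projective as a Banach left module over
itself if and only if `E` contains no isomorphic copy of `ℓ¹`.
-/

set_option autoImplicit false

namespace Pool.Agent.Results.MP_a30514_an.UnconditionalDecompositions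

open Pool.Agent.Helper53 Pool.Agent.Y277.KE Pool.Agent.Y277.UB Pool.Agent.Y277.UD

/-- (1) Let `E` be a complex Banach space with an unconditional finite-dimensional decomposition
(countable or uncountable). Then `K(E)` is projective as a Banach right module over itself, and it
is projective as a Banach left module over itself if and only if `E` contains no isomorphic copy of
`ℓ¹`; the same holds with `no complemented copy of ℓ¹` and with `no copy of c₀ in the dual space`.
(2) Every space with an unconditional basis has such a decomposition. -/
theorem result.{u} :
    (∀ (E : Type u) [NormedAddCommGroup E] [NormedSpace ℂ E] [CompleteSpace E], HasUFDD E →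
      KRightProjective E ∧
      (KLeftProjective E ↔ ¬ ContainsCopy E (lp (fun _ : ℕ => ℂ) 1)) ∧
      (KLeftProjective E ↔ ¬ ComplementedEll1 E) ∧
      (KLeftProjective E ↔ ¬ DualContainsC0 E)) ∧
    (∀ (E : Type u) [NormedAddCommGroup E] [NormedSpace ℂ E],
      HasUnconditionalBasis E → HasUFDD E) := by
  refine ⟨?_, ?_⟩
  · intro E _ _ _ h
    refine ⟨?_, Pool.Agent.Y277.UD.iff_contains h, Pool.Agent.Y277.UD.iff_complemented h,
      Pool.Agent.Y277.UD.iff_dual h⟩
    obtain ⟨ι, Q, h0, h1, -, h3⟩ := h
    exact rightProjective Q h0 h1 h3
  · intro E _ _ h
    exact hasUFDD_of_basis h

end Pool.Agent.Results.MP_a30514_an.UnconditionalDecompositions
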